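import Pool.Agent.Helper91.LIN.Unr

/-!
# Unramified representations of number fields with infinite class field towers

Let `K` be a number field, let `r` be the rank of its group of units, and let `p` be an odd prime number
which divides neither the discriminant nor the class number of `K`. Let `1 ≤ e` and `4 e ≤ p`. We
construct infinitely many number fields `M` containing `K` of degree `p ^ 2` with the following
properties (`result`).

1. There are exactly `p ^ (2 e)` homomorphisms from the class group of `M` to the group of order `p`; in
   the theorem they are the continuous homomorphisms from the absolute Galois group of `M` which are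
   unramified everywhere.
2. Let `S'` be a finite set of primes of `M` whose members do not have a norm congruent to `1` modulo
   `p` or lie above `p`, for example the empty set, and let `A` be any complete Noetherian local ring with
   finite residue field of characteristic `p`. All continuous homomorphisms from the absolute Galois
   group of `M` to `GL_m(A)` with `m ≤ r` and `m < p`, which are unramified outside `S'` and at most
   tamely ramified in `S'`, and whose image in `PGL_m` of the residue field is a `p`-group, have finite
   image.

The `p`-class field tower of `M` is infinite if `p` is not too small: there is an intermediate field `L`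
such that `L / K` and `M / L` are cyclic of degree `p`, the extension `L / K` is unramified outside a set
`S` of `r + 2` primes of `K`, the extension `M / L` is totally ramified at all primes above `S` and
unramified at all other primes, the rank of the group of units of `L` is `p (r + 1) - 1`, and there are
exactly `p ^ (2 e + 1)` continuous homomorphisms from the absolute Galois group of `L` to the group of
order `p` which are unramified outside the primes above `S`. By results of Shafarevich and Koch the Galois group of the maximal `p`-extension of `L` which is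
unramified outside the primes above `S` is generated by `2 e + 1` elements and can be presented by
`2 e + p (r + 1)` relations. Let `Γ` be its quotient by the `p`-th powers of the elements of the inertia
groups. There are at most `p (r + 2)` primes of `L` above `S`, so the relations of `Γ` are those above
and at most `p (r + 2)` other relations, which are `p`-th powers. The subgroup of index `p` of `Γ`
which belongs to `M` is the Galois group of the maximal unramified `p`-extension of `M`: the inertia
groups of `Γ` have order `p` and meet this subgroup trivially. If `16 (r + 2) ≤ p` and `e` is the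
largest integer with `4 e ≤ p`, then there is a number `t` with `0 < t < 1` and
`1 - (2 e + 1) t + (2 e + p (r + 1)) t ^ 2 + p (r + 2) t ^ p < 0` (`golod`), and `Γ` is infinite
by the theorem of Golod and Shafarevich.

Idea of the proof.

1. The set `S`, the field `L` and the characters `χ_0, ..., χ_{2 e}` of the Galois group of `L` are those
of the construction described in the hand-in `UnitRank`: the primes above `S` other than the one above
the first prime `v₀` are indexed such that the vectors of the values of the characters at elements of the
inertia groups are `γ(s) = (1, s, ..., s ^ (2 e))`, and the vectors of the values at Frobenius elements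
are `- γ(s + i)`, where `1 ≤ i ≤ r`; for `i ≤ r` the norms of the primes are congruent to `1` modulo
`p ^ 2`, and for the last prime, where all `s` occur also, they are not. At the prime above `v₀` the
vector for the inertia group is a multiple of `(0, ..., 0, 1)`. Let `g` be a quadratic nonresidue modulo
`p`. The polynomial `C(t) = (t ^ 2 - g) ^ e` has degree `2 e` and no zeros modulo `p`, so the character
`θ = ∑ C_a χ_a` is ramified at all primes above `S`, and `M` is the field fixed by its kernel.

2. Let `σ` be a homomorphism from the subgroup `G_M`, the kernel of `θ`, to `GL_m(O)`, unramified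
everywhere, where `O` is a complete discrete valuation ring with prime element `π`, and let
`σ ≡ 1` modulo `π ^ a`. A power of `σ` modulo `π ^ (2 a + 1)` factors over a finite quotient of `Γ`. The
relations `[τ, s] = 1` and `τ ^ p = 1` of `Γ` for the inertia groups, together with the fact that the
pairs of vectors above are rigid, show that all homomorphisms from `G_M` to `F_p` which are unramified
everywhere are invariant under `Γ`, so they are the restrictions of the characters of `Γ`. So the
first coefficient `φ` of `σ`, where `σ = 1 + π ^ a φ`, extends to `G_L` with `φ(τ₀) = 0` for one chosen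
element `τ₀` of an inertia group.

3. The second coefficients of `σ` and of its conjugate by `τ₀` differ by a homomorphism, given by a
matrix-valued linear form `Λ`. If `π ^ (a + 1)` divides `p`, the relations `[τ, s] = 1` show that the
alternating form `[φ(x), φ(y)] + u (θ(x) Λ(y) - θ(y) Λ(x))` vanishes at all pairs
`(γ(s), γ(s + i))`, `1 ≤ i ≤ r`. Its entries are sums of at most `m ≤ r` forms of rank two, so it is zero
by the theorem on forms explained in `UnitRank`; its value at the vector of `τ₀` gives `Λ = 0`, and the
commutators of `φ` vanish. In the other case the relations `τ ^ p = 1` show that `φ = 0`. This is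
`Helper84.LIN.commute_unr0`.

4. By a criterion proved before (`Helper91.UN.finite_of_commute`) the commutation of the first
coefficients for all `σ` implies that all representations in question have finite image.
-/

set_option autoImplicit false

open NumberField IsLocalRing Matrix

open scoped Pointwise

namespace Pool.Agent.Helper42.Old.UnramifiedTowers

/-- The absolute Galois group of the field `K`. -/
abbrev G (K : Type) [Field K] : Type := AlgebraicClosure K ≃ₐ[K] AlgebraicClosure K

/-- The homomorphism `ρ` is unramified outside `S` and at most tamely ramified in `S`: for every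
number field `F` containing `K` and embedded over `K` into the fixed field of the kernel of `ρ`,
and every maximal ideal `P` of the ring of integers of `F` above a prime `q` of `K`, the ramification
index `e` of `P` over `q` is `1` if `q ∉ S` and is prime to the residue characteristic if `q ∈ S`. -/
def TameAt (K : Type) [Field K] [NumberField K] (S : Set (Ideal (𝓞 K))) {H : Type} [Group H]
    (ρ : G K →* H) : Prop :=
  ∀ (F : Type) [Field F] [NumberField F] [Algebra K F] (ι : F →ₐ[K] AlgebraicClosure K),
    ι.fieldRange ≤ IntermediateField.fixedField ρ.ker →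
    ∀ (P : Ideal (𝓞 F)), P.IsMaximal →
    ∀ (q : Ideal (𝓞 K)), q = P.comap (algebraMap (𝓞 K) (𝓞 F)) →
    ∀ e : ℕ, q.map (algebraMap (𝓞 K) (𝓞 F)) ≤ P ^ e →
      ¬ (q.map (algebraMap (𝓞 K) (𝓞 F)) ≤ P ^ (e + 1)) →
      (q ∉ S → e = 1) ∧ (q ∈ S → ¬ (ringChar (𝓞 K ⧸ q) ∣ e))

/-- The residual representation: the reduction of `ρ` modulo the maximal ideal. -/
noncomputable def residual {Γ A : Type} [Group Γ] [CommRing A] [IsLocalRing A] {n : ℕ}
    (ρ : Γ →* GL (Fin n) A) : Γ →* GL (Fin n) (ResidueField A) :=
  (Matrix.GeneralLinearGroup.map (residue A)).comp ρ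

/-- The projective image of `τ` is a `p`-group: for every `g` some power of `τ g` with exponent a
power of `p` is scalar. -/
def ProjectivelyP (p : ℕ) {Γ k : Type} [Group Γ] [Field k] {n : ℕ} (τ : Γ →* GL (Fin n) k) : Prop :=
  ∀ g, ∃ (j : ℕ) (a : k), ((τ g ^ p ^ j : GL (Fin n) k) : Matrix (Fin n) (Fin n) k) = a • 1

/-- The homomorphism `ψ` to the group of order `p` is continuous and unramified outside `S`: its kernel
is open and it is trivial on the inertia groups of all maximal ideals `Q` of the ring of all algebraic
integers which lie above a prime outside `S`. -/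
def UnramifiedOutside (p : ℕ) {K : Type} [Field K] [NumberField K] (S : Set (Ideal (𝓞 K)))
    (ψ : G K →* Multiplicative (ZMod p)) : Prop :=
  IsOpen (ψ.ker : Set (G K)) ∧ ∀ Q : Ideal (𝓞 (AlgebraicClosure K)), Q.IsMaximal →
    Q.comap (algebraMap (𝓞 K) (𝓞 (AlgebraicClosure K))) ∉ S → ∀ γ ∈ Q.inertia (G K), ψ γ = 1

/-- The set `S` consists of `r + 2` primes `P` of `K`, where `r` is the rank of the group of units, and
the residue fields of `P` have a prime number `q` of elements, where `q - 1` is divisible by `p`. -/
structure Primes (p : ℕ) (K : Type) [Field K] [NumberField K] (S : Finset (Ideal (𝓞 K))) : Prop where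
  card_eq : S.card = Units.rank K + 2
  maximal : ∀ P ∈ S, P.IsMaximal
  prime : ∀ P ∈ S, (Nat.card (𝓞 K ⧸ P)).Prime
  dvd : ∀ P ∈ S, p ∣ Nat.card (𝓞 K ⧸ P) - 1

/-- The number field `L` is a cyclic extension of `K` of degree `p` and unramified outside `S`, the rank
of its group of units is `p (r + 1) - 1`, where `r` is the rank for `K`, and there are `p ^ d` continuous
homomorphisms from the absolute Galois group of `L` to the group of order `p` which are unramified
outside the primes above `S`. -/
structure Middle (p : ℕ) (K L : Type) [Field K] [NumberField K] [Field L] [NumberField L] [Algebra K L]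
    (d : ℕ) (S : Set (Ideal (𝓞 K))) : Prop where
  galois : IsGalois K L
  degree : Module.finrank K L = p
  unramified : ∀ P : Ideal (𝓞 L), P.IsMaximal → P.comap (algebraMap (𝓞 K) (𝓞 L)) ∉ S →
    ¬ (P.comap (algebraMap (𝓞 K) (𝓞 L))).map (algebraMap (𝓞 K) (𝓞 L)) ≤ P ^ 2
  rank_eq : Units.rank L + 1 = p * (Units.rank K + 1)
  characters : Nat.card {ψ : G L →* Multiplicative (ZMod p) //
    UnramifiedOutside p {P | P.comap (algebraMap (𝓞 K) (𝓞 L)) ∈ S} ψ} = p ^ d

/-- The number field `M` is a cyclic extension of `L` of degree `p`, which is totally ramified at all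
primes above `S` and unramified at all other primes, and there are `p ^ d` continuous homomorphisms from
the absolute Galois group of `M` to the group of order `p` which are unramified everywhere, that is,
`p ^ d` homomorphisms from the class group of `M` to the group of order `p`. -/
structure Top (p : ℕ) (K L M : Type) [Field K] [NumberField K] [Field L] [NumberField L] [Field M]
    [NumberField M] [Algebra K L] [Algebra L M] (d : ℕ) (S : Set (Ideal (𝓞 K))) : Prop where
  galois : IsGalois L M
  degree : Module.finrank L M = p
  ramified : ∀ P : Ideal (𝓞 M), P.IsMaximal → ∀ q : Ideal (𝓞 L),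
    P.comap (algebraMap (𝓞 L) (𝓞 M)) = q → q.comap (algebraMap (𝓞 K) (𝓞 L)) ∈ S →
    q.map (algebraMap (𝓞 L) (𝓞 M)) ≤ P ^ p
  unramified : ∀ P : Ideal (𝓞 M), P.IsMaximal → ∀ q : Ideal (𝓞 L),
    P.comap (algebraMap (𝓞 L) (𝓞 M)) = q → q.comap (algebraMap (𝓞 K) (𝓞 L)) ∉ S →
    ¬ q.map (algebraMap (𝓞 L) (𝓞 M)) ≤ P ^ 2
  characters : Nat.card {ψ : G M →* Multiplicative (ZMod p) // UnramifiedOutside p ∅ ψ} = p ^ d

/-- Let `K` be a number field with infinitely many units, let `r ≥ 1` be the rank of its group of units,
and let `p` be an odd prime number which divides neither the discriminant nor the class number of `K`.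
Let `1 ≤ e` and `4 e ≤ p`. For every finite set `B` of primes there are a set `S` of `r + 2` primes
outside `B` as in `Primes`, a cyclic extension `L` of degree `p` as in `Middle` with `p ^ (2 e + 1)`
characters, and a cyclic extension `M` of `L` of degree `p` as in `Top` with `p ^ (2 e)` unramified
characters, such that all representations of dimension `m ≤ r`, `m < p`, of the absolute Galois group of
`M` over complete Noetherian local rings, which are tame and ramified only in a finite set `S'` of primes
which have norm not congruent to `1` modulo `p` or lie above `p`, and whose projective residual image is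
a `p`-group, have finite image. -/
theorem result (K : Type) [Field K] [NumberField K] (p : ℕ) [Fact p.Prime] (e : ℕ) (hp : p ≠ 2)
    (hdisc : ¬ (p : ℤ) ∣ discr K) (hcl : ¬ p ∣ classNumber K) (he : 1 ≤ e) (hep : 4 * e ≤ p)
    (hr : 1 ≤ Units.rank K) (B : Set (Ideal (𝓞 K))) (hB : B.Finite) :
    ∃ (S : Finset (Ideal (𝓞 K))) (L : Type) (_ : Field L) (_ : NumberField L) (_ : Algebra K L)
      (M : Type) (_ : Field M) (_ : NumberField M) (_ : Algebra L M),
      (∀ P ∈ S, P ∉ B) ∧ Primes p K S ∧ Middle p K L (2 * e + 1) (S : Set (Ideal (𝓞 K))) ∧
      Top p K L M (2 * e) (S : Set (Ideal (𝓞 K))) ∧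
      ∀ S' : Set (Ideal (𝓞 M)), S'.Finite →
      (∀ P ∈ S', P.IsMaximal → (p : 𝓞 M) ∉ P → ¬ p ∣ Nat.card (𝓞 M ⧸ P) - 1) →
      ∀ (A : Type) [CommRing A] [IsLocalRing A] [IsNoetherianRing A] [TopologicalSpace A]
      [CharP (ResidueField A) p] [Finite (ResidueField A)] [IsAdicComplete (maximalIdeal A) A],
      IsAdic (maximalIdeal A) → ∀ m ≤ Units.rank K, m < p →
      ∀ (ρ : G M →* GL (Fin m) A), Continuous ρ →
      TameAt M S' ρ → ProjectivelyP p (residual ρ) → (Set.range ρ).Finite := by
  obtain ⟨S, L, _, _, _, M, _, _, _, h1, h2, ⟨h3, h4, h5, h5', h6⟩, ⟨h7, h8, h9, h10⟩, h11⟩ :=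
    Helper91.LIN.final_unr K p e hp hdisc hcl he hep hr B hB
  exact ⟨S, L, _, _, _, M, _, _, _, fun P hP => (h1 P hP).1,
    ⟨h2, fun P hP => (h1 P hP).2.1, fun P hP => (h1 P hP).2.2.1, fun P hP => (h1 P hP).2.2.2⟩,
    ⟨h3, h4, h5, h5', h6⟩, ⟨h7, h8, fun P hP q hq hS => (h9 P hP q hq).1 hS,
    fun P hP q hq hS => (h9 P hP q hq).2 hS, h10⟩, h11⟩

/-- If `16 (r + 2) ≤ p` and `e` is the largest integer with `4 e ≤ p`, then the inequality of Golod and
Shafarevich for `2 e + 1` generators, `2 e + p (r + 1)` relations and `p (r + 2)` further relations
which are `p`-th powers is satisfied. -/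
theorem golod {p r : ℕ} (h : 16 * (r + 2) ≤ p) : 1 ≤ p / 4 ∧ 4 * (p / 4) ≤ p ∧
    ∃ t : ℝ, 0 < t ∧ t < 1 ∧
      1 - (2 * (p / 4 : ℕ) + 1 : ℝ) * t + (2 * (p / 4 : ℕ) + p * (r + 1) : ℝ) * t ^ 2 +
        (p * (r + 2) : ℝ) * t ^ p < 0 := by
  refine ⟨by omega, by omega, 2 / (2 * (p / 4 : ℕ) + 1), by positivity, ?_, ?_⟩
  · rw [div_lt_one (by positivity)]
    have h1 : 1 ≤ p / 4 := by omega
    have h2 : (1 : ℝ) ≤ (p / 4 : ℕ) := by exact_mod_cast h1
    linarith
  · have h1 : p ≤ 4 * (p / 4) + 3 := by omega
    generalize p / 4 = e at h1 ⊢
    have h2 : (p : ℝ) ≤ 4 * e + 3 := by exact_mod_cast h1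
    have h3 : (16 * (r + 2) : ℝ) ≤ p := by exact_mod_cast h
    have hr : (0 : ℝ) ≤ r := Nat.cast_nonneg r
    set d : ℝ := 2 * (e : ℝ) + 1 with hd
    have h4 : (p : ℝ) ≤ 2 * d + 1 := by rw [hd]; linarith
    have hd15 : 15 ≤ d := by linarith
    have h5 : (2 / d) ^ p ≤ (2 / d) ^ 4 := by
      apply pow_le_pow_of_le_one (by positivity)
      · rw [div_le_one (by linarith)]
        linarith
      · omega
    have h6 : (p * (r + 1) : ℝ) ≤ (4 * d ^ 2 - 28 * d - 15) / 16 := by
      have h7 : (r + 1 : ℝ) ≤ (p - 16) / 16 := by linarith
      have h8 : (p : ℝ) * (r + 1) ≤ p * ((p - 16) / 16) :=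
        mul_le_mul_of_nonneg_left h7 (Nat.cast_nonneg p)
      nlinarith
    have h6' : (p * (r + 2) : ℝ) ≤ (2 * d + 1) ^ 2 / 16 := by
      have h7 : (r + 2 : ℝ) ≤ p / 16 := by linarith
      have h8 : (p : ℝ) * (r + 2) ≤ p * (p / 16) :=
        mul_le_mul_of_nonneg_left h7 (Nat.cast_nonneg p)
      have h9 : (0 : ℝ) ≤ p := Nat.cast_nonneg p
      nlinarith
    have hdpos : 0 < d := by linarith
    have h9 : (p * (r + 2) : ℝ) * (2 / d) ^ p ≤ (p * (r + 2) : ℝ) * (2 / d) ^ 4 :=
      mul_le_mul_of_nonneg_left h5 (by positivity)
    have h10 : (2 * (e : ℝ) + p * (r + 1)) = d - 1 + p * (r + 1) := by rw [hd]; ring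
    rw [h10]
    have h11 : 1 - d * (2 / d) + (d - 1 + p * (r + 1)) * (2 / d) ^ 2 +
        (p * (r + 2) : ℝ) * (2 / d) ^ 4 < 0 := by
      have h12 : 1 - d * (2 / d) + (d - 1 + p * (r + 1)) * (2 / d) ^ 2 +
        (p * (r + 2) : ℝ) * (2 / d) ^ 4 =
          (- d ^ 4 + 4 * (d - 1 + p * (r + 1)) * d ^ 2 + 16 * (p * (r + 2))) / d ^ 4 := by
        field_simp
        ring
      rw [h12]
      apply div_neg_of_neg_of_pos _ (by positivity)
      have h13 : 4 * (d - 1 + p * (r + 1)) * d ^ 2 ≤
          4 * (d - 1 + (4 * d ^ 2 - 28 * d - 15) / 16) * d ^ 2 := by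
        apply mul_le_mul_of_nonneg_right _ (by positivity)
        linarith
      nlinarith [sq_nonneg d, pow_pos hdpos 3]
    linarith

end Pool.Agent.Helper42.Old.UnramifiedTowers
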